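import Pool.Agent.W853.DP.LiftD

/-! DP-LIFT: the lift of a small step to the strip. -/

set_option autoImplicit false

namespace Pool.Agent.W853.DP

open Pool.Agent.W710.DP Complex


theorem Lq_per (φ : ℂ → ℂ) (x s : ℝ) : Lq φ (x + 1, s) = Lq φ (x, s) := by
  unfold Lq Wq
  rw [E_per]

theorem glu_per (s0 d : ℝ) (f : ℝ × ℝ → ℝ) (hf : ∀ x s, f (x + 1, s) = f (x, s)) (x s : ℝ) :
    glu s0 d f (x + 1, s) = glu s0 d f (x, s) := by
  unfold glu
  rw [hf]

theorem t_lift : Pool.Agent.W710.DP.S_lift := by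
  intro r0 hr0 ρ hρ δ' hδ'
  have hpi := Real.pi_pos
  set s0 : ℝ := Real.pi * r0 ^ 2 / 2 with hs0d
  have hs0 : 0 < s0 := by positivity
  obtain ⟨B, hB, hBd⟩ := ch_deriv_bound ρ
  set m : ℝ := Real.sqrt (s0 / Real.pi) with hmd
  have hm : 0 < m := Real.sqrt_pos.2 (div_pos hs0 hpi)
  set C : ℝ := 2 / m + 2 * (1 + 1 / m) * (2 * Real.pi + 1 / (2 * s0)) with hCd
  have hC1 : 0 < 2 / m := by positivity
  have hC2 : 0 < 2 * (1 + 1 / m) * (2 * Real.pi + 1 / (2 * s0)) := by positivity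
  have hC : 0 < C := by positivity
  set M : ℝ := 14 * (ρ + 4) * B with hMd
  have hM : 0 < M := by positivity
  refine ⟨min (m / 2) (min (1 / (2 * C)) (δ' / (M * C))), by positivity, ?_⟩
  set δ : ℝ := min (m / 2) (min (1 / (2 * C)) (δ' / (M * C))) with hδd
  have hδ0 : 0 < δ := by positivity
  have hδ1 : δ ≤ m / 2 := min_le_left _ _
  have hδ2 : C * δ ≤ 1 / 2 := by
    have : δ ≤ 1 / (2 * C) := (min_le_right _ _).trans (min_le_left _ _)
    rw [le_div_iff₀ (by positivity)] at this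
    linarith
  have hδ3 : M * (C * δ) ≤ δ' := by
    have : δ ≤ δ' / (M * C) := (min_le_right _ _).trans (min_le_right _ _)
    rw [le_div_iff₀ (by positivity)] at this
    linarith
  intro φ hAP hid hcl
  have hφs : ContDiff ℝ ((⊤ : ℕ∞) : WithTop ℕ∞) (⇑φ) := hAP.1
  have hφdet := hAP.2.2
  -- facts for low s
  have hlow : ∀ x s : ℝ, s < 2 * s0 → φ (E x s) = E x s := by
    intro x s hs
    apply hid
    rw [E_norm, Real.sqrt_lt' hr0, div_lt_iff₀ hpi]
    rw [hs0d] at hs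
    linarith
  -- facts for large s
  have hmid : ∀ x s : ℝ, s0 ≤ s → s ≤ ρ + 4 → Wq φ (x, s) ∈ Complex.slitPlane ∧
      φ (E x s) ≠ 0 ∧ ‖Lq φ (x, s)‖ ≤ C * δ ∧ ‖dL φ (x, s)‖ ≤ C * δ := by
    intro x s hs hs'
    have hspos : 0 < s := lt_of_lt_of_le hs0 hs
    have hEm : m ≤ ‖E x s‖ := by
      rw [E_norm, hmd]
      apply Real.sqrt_le_sqrt
      gcongr
    have har : ar (E x s) ≤ ρ + 4 := by rw [ar_E x s hspos.le]; exact hs'
    obtain ⟨c1, c2⟩ := hcl _ har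
    obtain ⟨w1, w2, w3, w4⟩ := W_bound φ x s m δ hm hEm c1 hδ1
    have w5 := dL_bound φ x s s0 m δ hm hEm hs0 hs c1 hδ1 c2
    refine ⟨w2, ?_, ?_, ?_⟩
    · rw [← norm_pos_iff]
      have : 0 < ‖E x s‖ := lt_of_lt_of_le hm hEm
      linarith
    · refine w4.trans ?_
      have : 2 * δ / m = 2 / m * δ := by ring
      rw [this]
      gcongr
      linarith
    · refine w5.trans ?_
      gcongr
      linarith
  have hLder : ∀ p : ℝ × ℝ, s0 ≤ p.2 → p.2 ≤ ρ + 4 → HasFDerivAt (Lq φ) (dL φ p) p := by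
    rintro ⟨x, s⟩ h1 h2
    obtain ⟨a1, a2, -, -⟩ := hmid x s h1 h2
    exact Lq_hasFDerivAt φ hφs x s (lt_of_lt_of_le hs0 h1) a1 a2
  have hLsm : ∀ p : ℝ × ℝ, s0 ≤ p.2 → p.2 ≤ ρ + 4 → ContDiffAt ℝ ((⊤ : ℕ∞) : WithTop ℕ∞) (Lq φ) p := by
    rintro ⟨x, s⟩ h1 h2
    obtain ⟨a1, a2, -, -⟩ := hmid x s h1 h2
    exact Lq_contDiffAt φ hφs x s (lt_of_lt_of_le hs0 h1) a1
  have hL0 : ∀ p : ℝ × ℝ, s0 < p.2 → p.2 < 2 * s0 → Lq φ p = 0 := by
    rintro ⟨x, s⟩ h1 h2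
    unfold Lq Wq
    simp only
    rw [hlow x s h2, div_self (E_ne x s (hs0.trans h1)), Complex.log_one]
  have hul : ∀ p : ℝ × ℝ, s0 < p.2 → p.2 < 2 * s0 → uf φ ρ p = 0 := by
    intro p h1 h2
    unfold uf
    rw [hL0 p h1 h2]
    simp
  have hvl : ∀ p : ℝ × ℝ, s0 < p.2 → p.2 < 2 * s0 → vf φ ρ p = 0 := by
    intro p h1 h2
    unfold vf
    rw [hL0 p h1 h2]
    simp
  have hur : ∀ p : ℝ × ℝ, ρ + 7 / 2 < p.2 → uf φ ρ p = 0 := by
    intro p h1
    unfold uf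
    rw [ch_zero ρ p.2 h1.le, zero_mul]
  have hvr : ∀ p : ℝ × ℝ, ρ + 7 / 2 < p.2 → vf φ ρ p = 0 := by
    intro p h1
    unfold vf
    rw [ch_zero ρ p.2 h1.le, zero_mul]
  have hcd : ρ + 7 / 2 < ρ + 4 := by linarith
  have hBC : 2 * B * (C * δ) ≤ δ' := by
    refine le_trans ?_ hδ3
    rw [hMd]
    have : 0 < C * δ := by positivity
    have h2B : 2 * B ≤ 14 * (ρ + 4) * B := by nlinarith
    gcongr
  refine ⟨glu s0 (ρ + 4) (uf φ ρ), glu s0 (ρ + 4) (vf φ ρ), ⟨?_, ?_, ?_, ?_, ?_⟩, ?_⟩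
  · refine glu_small hδ'.le hs0 hcd hul hur ?_ ?_
    · intro p h1 h2
      exact uf_contDiffAt φ ρ p (hLsm p h1.le h2.le)
    · intro p h1 h2
      rw [(uf_hasFDerivAt φ ρ p (hLder p h1.le h2.le)).fderiv]
      obtain ⟨-, -, a3, a4⟩ := hmid p.1 p.2 h1.le h2.le
      obtain ⟨b1, b2⟩ := uf_bound φ ρ p B (C * δ) hB hBd a3 a4
      exact ⟨b1.trans hBC, b2.trans hBC⟩
  · refine glu_small hδ'.le hs0 hcd hvl hvr ?_ ?_
    · intro p h1 h2
      exact vf_contDiffAt φ ρ p (hLsm p h1.le h2.le)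
    · intro p h1 h2
      rw [(vf_hasFDerivAt φ ρ p (hLder p h1.le h2.le)).fderiv]
      obtain ⟨-, -, a3, a4⟩ := hmid p.1 p.2 h1.le h2.le
      obtain ⟨b1, b2⟩ := vf_bound φ ρ hρ p B (C * δ) hB (hs0.trans h1) h2.le hδ2 hBd a3 a4
      exact ⟨b1.trans hδ3, b2.trans hδ3⟩
  · intro x s
    constructor
    · apply glu_per
      intro x s
      unfold uf
      simp only
      rw [Lq_per]
    · apply glu_per
      intro x s
      unfold vf
      simp only
      rw [Lq_per]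
  · intro x s hs
    have h2 : ((x, s) : ℝ × ℝ).2 < 2 * s0 := by simp only; linarith
    exact ⟨glu_low hul h2, glu_low hvl h2⟩
  · intro x s hs
    unfold Jac1
    by_cases h1 : s < 2 * s0
    · have g1 : fderiv ℝ (glu s0 (ρ + 4) (uf φ ρ)) (x, s) = 0 := by
        rw [(glu_ev_low (d := ρ + 4) hul (p := (x, s)) h1).fderiv_eq]; simp
      have g2 : fderiv ℝ (glu s0 (ρ + 4) (vf φ ρ)) (x, s) = 0 := by
        rw [(glu_ev_low (d := ρ + 4) hvl (p := (x, s)) h1).fderiv_eq]; simp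
      unfold px ps
      rw [g1, g2]
      simp
    · have h2 : s0 < s := by linarith [not_lt.1 h1]
      have h3 : s < ρ + 4 := by linarith
      have hd := hLder (x, s) h2.le h3.le
      have g1 : fderiv ℝ (glu s0 (ρ + 4) (uf φ ρ)) (x, s) = duf φ ρ (x, s) := by
        rw [(glu_ev_mid (f := uf φ ρ) (p := (x, s)) h2 h3).fderiv_eq]
        exact (uf_hasFDerivAt φ ρ (x, s) hd).fderiv
      have g2 : fderiv ℝ (glu s0 (ρ + 4) (vf φ ρ)) (x, s) = dvf φ ρ (x, s) := by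
        rw [(glu_ev_mid (f := vf φ ρ) (p := (x, s)) h2 h3).fderiv_eq]
        exact (vf_hasFDerivAt φ ρ (x, s) hd).fderiv
      obtain ⟨-, a2, -, -⟩ := hmid x s h2.le h3.le
      have hj := jac φ x s (hs0.trans h2) a2 (hφdet _)
      unfold px ps
      rw [g1, g2]
      refine Eq.trans ?_ hj
      have k1 : ch ρ s = 1 := ch_one ρ s hs.le
      have k2 : deriv (ch ρ) s = 0 := ch_deriv_zero ρ s hs
      unfold duf dvf
      simp [k1, k2]
      ring
  · intro x s hs hs3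
    by_cases h1 : s < 2 * s0
    · have g1 : glu s0 (ρ + 4) (uf φ ρ) (x, s) = 0 := glu_low hul h1
      have g2 : glu s0 (ρ + 4) (vf φ ρ) (x, s) = 0 := glu_low hvl h1
      rw [g1, g2, add_zero, add_zero, hlow x s h1]
      exact ⟨hs, rfl⟩
    · have h2 : s0 < s := by linarith [not_lt.1 h1]
      have h3 : s < ρ + 4 := by linarith
      have k1 : ch ρ s = 1 := ch_one ρ s hs3.le
      have g1 : glu s0 (ρ + 4) (uf φ ρ) (x, s) = (Lq φ (x, s)).im / (2 * Real.pi) := by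
        rw [glu_eq (f := uf φ ρ) (p := (x, s)) h2 h3]
        unfold uf
        simp only
        rw [k1, one_mul]
      have g2 : s + glu s0 (ρ + 4) (vf φ ρ) (x, s) = s * Real.exp (2 * (Lq φ (x, s)).re) := by
        rw [glu_eq (f := vf φ ρ) (p := (x, s)) h2 h3]
        unfold vf
        simp only
        rw [k1, one_mul]
        ring
      obtain ⟨-, a2, -, -⟩ := hmid x s h2.le h3.le
      have hE := E_ne x s hs
      rw [g2, E_shift x s _ (Lq φ (x, s)) hs g1]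
      refine ⟨mul_pos hs (Real.exp_pos _), ?_⟩
      unfold Lq
      rw [Complex.exp_log]
      · unfold Wq
        simp only
        field_simp
      · unfold Wq
        exact div_ne_zero a2 hE

end Pool.Agent.W853.DP
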