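import Pool.Agent.W710.DP.Stm2

/-! Preparations for DP-LIFT: polar coordinates and the logarithm of `φ(E)/E`. -/

set_option autoImplicit false

namespace Pool.Agent.W853.DP

open Pool.Agent.W710.DP Complex


theorem E_norm (x s : ℝ) : ‖E x s‖ = Real.sqrt (s / Real.pi) := by
  unfold E
  rw [norm_mul]
  have h1 : ‖Complex.exp (2 * Real.pi * x * Complex.I)‖ = 1 := by
    have : (2 * Real.pi * x * Complex.I : ℂ) = ((2 * Real.pi * x : ℝ) : ℂ) * Complex.I := by
      push_cast; ring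
    rw [this, Complex.norm_exp_ofReal_mul_I]
  rw [h1, mul_one, Complex.norm_real, Real.norm_eq_abs, abs_of_nonneg (Real.sqrt_nonneg _)]

theorem E_norm_sq (x s : ℝ) (hs : 0 ≤ s) : ‖E x s‖ ^ 2 = s / Real.pi := by
  rw [E_norm, Real.sq_sqrt (div_nonneg hs Real.pi_pos.le)]

theorem ar_E (x s : ℝ) (hs : 0 ≤ s) : ar (E x s) = s := by
  unfold ar
  rw [E_norm_sq x s hs]
  field_simp

theorem E_ne (x s : ℝ) (hs : 0 < s) : E x s ≠ 0 := by
  rw [← norm_pos_iff, E_norm]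
  exact Real.sqrt_pos.2 (div_pos hs Real.pi_pos)

theorem E_per (x s : ℝ) : E (x + 1) s = E x s := by
  unfold E
  congr 1
  have : (2 * Real.pi * ((x + 1 : ℝ) : ℂ) * Complex.I : ℂ)
      = 2 * Real.pi * x * Complex.I + 2 * Real.pi * Complex.I := by
    push_cast; ring
  rw [this, Complex.exp_add, Complex.exp_two_pi_mul_I, mul_one]

theorem E_exp (x s : ℝ) (hs : 0 < s) :
    E x s = Complex.exp (((1 / 2 * Real.log (s / Real.pi) : ℝ) : ℂ) + 2 * Real.pi * x * Complex.I) := by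
  unfold E
  rw [Complex.exp_add]
  congr 1
  rw [← Complex.ofReal_exp]
  congr 1
  have h : 0 < s / Real.pi := div_pos hs Real.pi_pos
  rw [Real.sqrt_eq_rpow, Real.rpow_def_of_pos h]
  congr 1
  ring

theorem E_shift (x s a : ℝ) (L : ℂ) (hs : 0 < s) (ha : a = L.im / (2 * Real.pi)) :
    E (x + a) (s * Real.exp (2 * L.re)) = E x s * Complex.exp L := by
  rw [E_exp _ _ (mul_pos hs (Real.exp_pos _)), E_exp _ _ hs, ← Complex.exp_add]
  congr 1
  have h : 0 < s / Real.pi := div_pos hs Real.pi_pos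
  have h1 : Real.log (s * Real.exp (2 * L.re) / Real.pi) = Real.log (s / Real.pi) + 2 * L.re := by
    rw [mul_div_right_comm, Real.log_mul h.ne' (Real.exp_pos _).ne', Real.log_exp]
  rw [h1, ha]
  have hp : (Real.pi : ℂ) ≠ 0 := by exact_mod_cast Real.pi_pos.ne'
  have hL := Complex.re_add_im L
  set a1 := L.re
  set b1 := L.im
  rw [← hL]
  push_cast
  field_simp
  ring

/-- the derivative of `E` -/
noncomputable def dE (x s : ℝ) : ℝ × ℝ →L[ℝ] ℂ :=
  (ContinuousLinearMap.fst ℝ ℝ ℝ).smulRight (2 * Real.pi * Complex.I * E x s) +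
    (ContinuousLinearMap.snd ℝ ℝ ℝ).smulRight (E x s / (2 * s))

theorem dE_apply (x s : ℝ) (h : ℝ × ℝ) :
    dE x s h = E x s * (2 * Real.pi * Complex.I * h.1 + h.2 / (2 * s)) := by
  unfold dE
  simp
  ring

/-- the exponential form of `E` -/
noncomputable def Ex (p : ℝ × ℝ) : ℂ :=
  Complex.exp (((1 / 2 * Real.log (p.2 / Real.pi) : ℝ) : ℂ) + 2 * Real.pi * p.1 * Complex.I)

theorem E_eventually (x s : ℝ) (hs : 0 < s) :
    (fun p : ℝ × ℝ => E p.1 p.2) =ᶠ[nhds (x, s)] Ex := by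
  have : ∀ᶠ p : ℝ × ℝ in nhds (x, s), 0 < p.2 :=
    continuousAt_snd.eventually (lt_mem_nhds hs)
  filter_upwards [this] with p hp
  exact E_exp _ _ hp

theorem E_hasFDerivAt (x s : ℝ) (hs : 0 < s) :
    HasFDerivAt (fun p : ℝ × ℝ => E p.1 p.2) (dE x s) (x, s) := by
  refine HasFDerivAt.congr_of_eventuallyEq ?_ (E_eventually x s hs)
  have hpi := Real.pi_pos
  have h1 : HasFDerivAt (fun p : ℝ × ℝ => (1 / 2 * Real.log (p.2 / Real.pi) : ℝ))
      ((1 / (2 * s)) • ContinuousLinearMap.snd ℝ ℝ ℝ) (x, s) := by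
    have h2 : HasDerivAt (fun t : ℝ => (1 / 2 * Real.log (t / Real.pi) : ℝ)) (1 / (2 * s)) s := by
      have h3 : HasDerivAt (fun t : ℝ => t / Real.pi) (1 / Real.pi) s :=
        (hasDerivAt_id s).div_const _
      have h4 := (h3.log (div_pos hs hpi).ne').const_mul (1 / 2 : ℝ)
      refine h4.congr_deriv ?_
      field_simp
    have h5 := h2.comp_hasFDerivAt (x, s) (hasFDerivAt_snd (𝕜 := ℝ) (p := (x, s)))
    exact h5
  have h6 : HasFDerivAt (fun p : ℝ × ℝ => (((1 / 2 * Real.log (p.2 / Real.pi) : ℝ) : ℂ)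
      + 2 * Real.pi * p.1 * Complex.I))
      (Complex.ofRealCLM.comp ((1 / (2 * s)) • ContinuousLinearMap.snd ℝ ℝ ℝ)
        + (ContinuousLinearMap.fst ℝ ℝ ℝ).smulRight
          (2 * Real.pi * Complex.I)) (x, s) := by
    have a1 := (Complex.ofRealCLM.hasFDerivAt (x := (1 / 2 * Real.log (s / Real.pi) : ℝ))).comp
      (x, s) h1
    have a2 : HasFDerivAt (fun p : ℝ × ℝ => (2 * Real.pi * p.1 * Complex.I : ℂ))
        ((ContinuousLinearMap.fst ℝ ℝ ℝ).smulRight (2 * Real.pi * Complex.I)) (x, s) := by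
      have := ((ContinuousLinearMap.fst ℝ ℝ ℝ).smulRight
        (2 * Real.pi * Complex.I : ℂ)).hasFDerivAt (x := (x, s))
      refine this.congr_of_eventuallyEq (Filter.Eventually.of_forall fun p => ?_)
      simp
      ring
    exact a1.add a2
  have h7 := (Complex.hasStrictDerivAt_exp (((1 / 2 * Real.log (s / Real.pi) : ℝ) : ℂ)
      + 2 * Real.pi * x * Complex.I)).hasDerivAt.hasFDerivAt.restrictScalars ℝ
  have h8 := h7.comp (x, s) h6
  refine h8.congr_fderiv (ContinuousLinearMap.ext fun h => ?_)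
  rw [dE_apply, E_exp x s hs]
  simp
  ring

theorem E_contDiffAt (x s : ℝ) (hs : 0 < s) :
    ContDiffAt ℝ ((⊤ : ℕ∞) : WithTop ℕ∞) (fun p : ℝ × ℝ => E p.1 p.2) (x, s) := by
  refine ContDiffAt.congr_of_eventuallyEq ?_ (E_eventually x s hs)
  have hpi := Real.pi_pos
  have h1 : ContDiffAt ℝ ((⊤ : ℕ∞) : WithTop ℕ∞) (fun p : ℝ × ℝ => (1 / 2 * Real.log (p.2 / Real.pi) : ℝ)) (x, s) := by
    apply ContDiffAt.mul contDiffAt_const
    apply ContDiffAt.log
    · exact contDiffAt_snd.div_const _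
    · exact (div_pos hs hpi).ne'
  have h2 : ContDiffAt ℝ ((⊤ : ℕ∞) : WithTop ℕ∞) (fun p : ℝ × ℝ => ((1 / 2 * Real.log (p.2 / Real.pi) : ℝ) : ℂ))
      (x, s) := Complex.ofRealCLM.contDiff.contDiffAt.comp (x, s) h1
  have h3 : ContDiffAt ℝ ((⊤ : ℕ∞) : WithTop ℕ∞) (fun p : ℝ × ℝ => (2 * Real.pi * p.1 * Complex.I : ℂ)) (x, s) := by
    have : ContDiff ℝ ((⊤ : ℕ∞) : WithTop ℕ∞) ((ContinuousLinearMap.fst ℝ ℝ ℝ).smulRight
        (2 * Real.pi * Complex.I : ℂ)) := ContinuousLinearMap.contDiff _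
    refine this.contDiffAt.congr_of_eventuallyEq (Filter.Eventually.of_forall fun p => ?_)
    simp
    ring
  have h4 := h2.add h3
  exact h4.cexp

end Pool.Agent.W853.DP
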