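import Pool.Agent.W853.DP.LiftA

/-! The logarithm `L = log (φ(E)/E)` and its derivative. -/

set_option autoImplicit false

namespace Pool.Agent.W853.DP

open Pool.Agent.W710.DP Complex


/-- quotient -/
noncomputable def Wq (φ : ℂ → ℂ) (p : ℝ × ℝ) : ℂ := φ (E p.1 p.2) / E p.1 p.2

/-- its logarithm -/
noncomputable def Lq (φ : ℂ → ℂ) (p : ℝ × ℝ) : ℂ := Complex.log (Wq φ p)

/-- derivative of the logarithm -/
noncomputable def dL (φ : ℂ → ℂ) (p : ℝ × ℝ) : ℝ × ℝ →L[ℝ] ℂ :=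
  (φ (E p.1 p.2))⁻¹ • ((fderiv ℝ φ (E p.1 p.2)).comp (dE p.1 p.2)) -
    (E p.1 p.2)⁻¹ • dE p.1 p.2

theorem dL_apply (φ : ℂ → ℂ) (x s : ℝ) (hs : 0 < s) (h : ℝ × ℝ) :
    dL φ (x, s) h = (φ (E x s))⁻¹ * (fderiv ℝ φ (E x s)
        (E x s * (2 * Real.pi * Complex.I * h.1 + h.2 / (2 * s)))) -
      (2 * Real.pi * Complex.I * h.1 + h.2 / (2 * s)) := by
  have hE := E_ne x s hs
  unfold dL
  simp only [ContinuousLinearMap.sub_apply, ContinuousLinearMap.smul_apply,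
    ContinuousLinearMap.comp_apply, dE_apply, smul_eq_mul]
  congr 1
  field_simp

theorem Lq_hasFDerivAt (φ : ℂ → ℂ) (hφ : ContDiff ℝ ((⊤ : ℕ∞) : WithTop ℕ∞) φ) (x s : ℝ) (hs : 0 < s)
    (hW : Wq φ (x, s) ∈ Complex.slitPlane) (h0 : φ (E x s) ≠ 0) :
    HasFDerivAt (Lq φ) (dL φ (x, s)) (x, s) := by
  have hE := E_ne x s hs
  have h1 := E_hasFDerivAt x s hs
  have hd : DifferentiableAt ℝ φ (E x s) := hφ.differentiable (by simp) _
  have h2 : HasFDerivAt (fun p : ℝ × ℝ => φ (E p.1 p.2))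
      ((fderiv ℝ φ (E x s)).comp (dE x s)) (x, s) :=
    hd.hasFDerivAt.comp (x, s) h1
  have h3 : HasFDerivAt (fun p : ℝ × ℝ => (E p.1 p.2)⁻¹)
      (-(E x s ^ 2)⁻¹ • dE x s) (x, s) := by
    have := ((hasDerivAt_inv hE).hasFDerivAt.restrictScalars ℝ).comp (x, s) h1
    refine this.congr_fderiv (ContinuousLinearMap.ext fun h => ?_)
    simp
    ring
  have h4 := h2.mul h3
  have h5 : HasFDerivAt (Wq φ) _ (x, s) := h4
  have h6 := (Complex.hasStrictFDerivAt_log_real hW).hasFDerivAt.comp (x, s) h5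
  refine h6.congr_fderiv (ContinuousLinearMap.ext fun h => ?_)
  rw [dL_apply φ x s hs]
  simp only [ContinuousLinearMap.comp_apply, ContinuousLinearMap.smul_apply,
    ContinuousLinearMap.add_apply, dE_apply, smul_eq_mul, ContinuousLinearMap.one_apply, Wq]
  field_simp
  ring

theorem Lq_contDiffAt (φ : ℂ → ℂ) (hφ : ContDiff ℝ ((⊤ : ℕ∞) : WithTop ℕ∞) φ) (x s : ℝ) (hs : 0 < s)
    (hW : Wq φ (x, s) ∈ Complex.slitPlane) :
    ContDiffAt ℝ ((⊤ : ℕ∞) : WithTop ℕ∞) (Lq φ) (x, s) := by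
  have hE := E_ne x s hs
  have h1 := E_contDiffAt x s hs
  have h2 : ContDiffAt ℝ ((⊤ : ℕ∞) : WithTop ℕ∞) (fun p : ℝ × ℝ => φ (E p.1 p.2)) (x, s) :=
    hφ.contDiffAt.comp (x, s) h1
  have h3 : ContDiffAt ℝ ((⊤ : ℕ∞) : WithTop ℕ∞) (fun p : ℝ × ℝ => (E p.1 p.2)⁻¹) (x, s) := h1.inv hE
  have h4 : ContDiffAt ℝ ((⊤ : ℕ∞) : WithTop ℕ∞) (Wq φ) (x, s) := h2.mul h3
  exact ((Complex.contDiffAt_log hW).restrict_scalars ℝ).comp (x, s) h4

end Pool.Agent.W853.DP
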