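import Pool.Agent.W853.DP.LiftB

/-! Bounds for the logarithm, Jacobian, cutoff and gluing. -/

set_option autoImplicit false

namespace Pool.Agent.W853.DP

open Pool.Agent.W710.DP Complex


theorem W_bound (φ : ℂ → ℂ) (x s m δ : ℝ) (hm : 0 < m) (hE : m ≤ ‖E x s‖)
    (h1 : ‖φ (E x s) - E x s‖ ≤ δ) (hδ : δ ≤ m / 2) :
    ‖Wq φ (x, s) - 1‖ ≤ δ / m ∧ Wq φ (x, s) ∈ Complex.slitPlane ∧
      ‖E x s‖ / 2 ≤ ‖φ (E x s)‖ ∧ ‖Lq φ (x, s)‖ ≤ 2 * δ / m := by
  have hE0 : 0 < ‖E x s‖ := lt_of_lt_of_le hm hE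
  have hEne : E x s ≠ 0 := norm_pos_iff.1 hE0
  have hδ0 : 0 ≤ δ := (norm_nonneg _).trans h1
  have h2 : Wq φ (x, s) - 1 = (φ (E x s) - E x s) / E x s := by
    unfold Wq
    field_simp
  have h3 : ‖Wq φ (x, s) - 1‖ ≤ δ / m := by
    rw [h2, norm_div]
    exact div_le_div₀ hδ0 h1 hm hE
  have h4 : δ / m ≤ 1 / 2 := by
    rw [div_le_iff₀ hm]; linarith
  have h5 : Wq φ (x, s) = 1 + (Wq φ (x, s) - 1) := by ring
  refine ⟨h3, ?_, ?_, ?_⟩
  · rw [h5]
    apply Complex.mem_slitPlane_of_norm_lt_one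
    linarith
  · have h6 : ‖E x s‖ - ‖φ (E x s) - E x s‖ ≤ ‖φ (E x s)‖ := by
      have := norm_sub_norm_le (E x s) (E x s - φ (E x s))
      rw [sub_sub_cancel] at this
      rw [norm_sub_rev (φ (E x s))]
      exact this
    linarith
  · unfold Lq
    rw [h5]
    have h7 := Complex.norm_log_one_add_half_le_self (h3.trans h4)
    have h8 : 3 / 2 * ‖Wq φ (x, s) - 1‖ ≤ 2 * δ / m := by
      have h9 : 2 * δ / m = 2 * (δ / m) := by ring
      rw [h9]
      nlinarith [norm_nonneg (Wq φ (x, s) - 1)]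
    exact h7.trans h8

theorem dL_bound (φ : ℂ → ℂ) (x s s0 m δ : ℝ) (hm : 0 < m) (hE : m ≤ ‖E x s‖)
    (hs0 : 0 < s0) (hs : s0 ≤ s)
    (h1 : ‖φ (E x s) - E x s‖ ≤ δ) (hδ : δ ≤ m / 2)
    (h2 : ‖fderiv ℝ φ (E x s) - ContinuousLinearMap.id ℝ ℂ‖ ≤ δ) :
    ‖dL φ (x, s)‖ ≤ 2 * (1 + 1 / m) * (2 * Real.pi + 1 / (2 * s0)) * δ := by
  have hspos : 0 < s := lt_of_lt_of_le hs0 hs
  have hE0 : 0 < ‖E x s‖ := lt_of_lt_of_le hm hE
  have hEne : E x s ≠ 0 := norm_pos_iff.1 hE0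
  have hδ0 : 0 ≤ δ := (norm_nonneg _).trans h1
  have hpi := Real.pi_pos
  obtain ⟨-, -, h3, -⟩ := W_bound φ x s m δ hm hE h1 hδ
  have hφ0 : 0 < ‖φ (E x s)‖ := lt_of_lt_of_le (by positivity) h3
  have hφne : φ (E x s) ≠ 0 := norm_pos_iff.1 hφ0
  refine ContinuousLinearMap.opNorm_le_bound _ (by positivity) fun h => ?_
  rw [dL_apply φ x s hspos]
  set k : ℂ := 2 * Real.pi * Complex.I * h.1 + h.2 / (2 * s) with hk
  have hkb : ‖k‖ ≤ (2 * Real.pi + 1 / (2 * s0)) * ‖h‖ := by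
    have e1 : ‖(2 * Real.pi * Complex.I * h.1 : ℂ)‖ ≤ 2 * Real.pi * ‖h‖ := by
      rw [norm_mul, norm_mul, norm_mul, Complex.norm_I, Complex.norm_real, Complex.norm_real]
      simp only [Complex.norm_ofNat, mul_one, Real.norm_eq_abs, abs_of_pos hpi]
      have : |h.1| ≤ ‖h‖ := norm_fst_le h
      gcongr
    have e2 : ‖(h.2 / (2 * s) : ℂ)‖ ≤ 1 / (2 * s0) * ‖h‖ := by
      rw [norm_div, norm_mul, Complex.norm_real, Complex.norm_real]
      simp only [Complex.norm_ofNat, Real.norm_eq_abs, abs_of_pos hspos]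
      have : |h.2| ≤ ‖h‖ := norm_snd_le h
      calc |h.2| / (2 * s) ≤ ‖h‖ / (2 * s0) := by gcongr
        _ = 1 / (2 * s0) * ‖h‖ := by ring
    calc ‖k‖ ≤ _ := norm_add_le _ _
      _ ≤ 2 * Real.pi * ‖h‖ + 1 / (2 * s0) * ‖h‖ := add_le_add e1 e2
      _ = _ := by ring
  have hid : (φ (E x s))⁻¹ * (fderiv ℝ φ (E x s) (E x s * k)) - k =
      (φ (E x s))⁻¹ * (((fderiv ℝ φ (E x s) - ContinuousLinearMap.id ℝ ℂ) (E x s * k)) -
        k * (φ (E x s) - E x s)) := by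
    rw [sub_apply, ContinuousLinearMap.id_apply]
    field_simp
    ring
  rw [hid, norm_mul, norm_inv]
  have h4 : ‖((fderiv ℝ φ (E x s) - ContinuousLinearMap.id ℝ ℂ) (E x s * k)) -
        k * (φ (E x s) - E x s)‖ ≤ δ * (‖E x s‖ * ‖k‖) + ‖k‖ * δ := by
    refine (norm_sub_le _ _).trans (add_le_add ?_ ?_)
    · refine (ContinuousLinearMap.le_opNorm _ _).trans ?_
      rw [norm_mul]
      exact mul_le_mul_of_nonneg_right h2 (by positivity)
    · rw [norm_mul]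
      exact mul_le_mul_of_nonneg_left h1 (norm_nonneg _)
  have h5 : ‖φ (E x s)‖⁻¹ ≤ 2 / ‖E x s‖ := by
    rw [inv_le_comm₀ hφ0 (by positivity)]
    rw [inv_div]
    exact h3
  calc ‖φ (E x s)‖⁻¹ * _ ≤ (2 / ‖E x s‖) * (δ * (‖E x s‖ * ‖k‖) + ‖k‖ * δ) :=
        mul_le_mul h5 h4 (norm_nonneg _) (by positivity)
    _ = 2 * (1 + 1 / ‖E x s‖) * δ * ‖k‖ := by field_simp
    _ ≤ 2 * (1 + 1 / m) * δ * ‖k‖ := by gcongr
    _ ≤ 2 * (1 + 1 / m) * δ * ((2 * Real.pi + 1 / (2 * s0)) * ‖h‖) := by gcongr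
    _ = _ := by ring

theorem det_formula (A : ℂ →ₗ[ℝ] ℂ) (hA : LinearMap.det A = 1) (h k : ℂ) :
    (A h).re * (A k).im - (A h).im * (A k).re = h.re * k.im - h.im * k.re := by
  rw [← LinearMap.det_toMatrix Complex.basisOneI, Matrix.det_fin_two] at hA
  simp only [LinearMap.toMatrix_apply, Complex.coe_basisOneI, Complex.coe_basisOneI_repr,
    Matrix.cons_val_zero, Matrix.cons_val_one] at hA
  have e : ∀ z : ℂ, A z = z.re * A 1 + z.im * A Complex.I := by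
    intro z
    have hz : z = z.re • (1 : ℂ) + z.im • Complex.I := by
      apply Complex.ext <;> simp
    conv_lhs => rw [hz]
    rw [map_add, map_smul, map_smul]
    simp
  rw [e h, e k]
  simp
  linear_combination (h.re * k.im - h.im * k.re) * hA

theorem jac (φ : ℂ → ℂ) (x s : ℝ) (hs : 0 < s) (h0 : φ (E x s) ≠ 0)
    (hdet : LinearMap.det ((fderiv ℝ φ (E x s) : ℂ →L[ℝ] ℂ) : ℂ →ₗ[ℝ] ℂ) = 1) :
    (1 + (dL φ (x, s) (1, 0)).im / (2 * Real.pi)) *
      (1 + ((Real.exp (2 * (Lq φ (x, s)).re) - 1) +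
        2 * s * Real.exp (2 * (Lq φ (x, s)).re) * (dL φ (x, s) (0, 1)).re)) -
      ((dL φ (x, s) (0, 1)).im / (2 * Real.pi)) *
        (2 * s * Real.exp (2 * (Lq φ (x, s)).re) * (dL φ (x, s) (1, 0)).re) = 1 := by
  have hE := E_ne x s hs
  have hpi := Real.pi_pos
  set A := ((fderiv ℝ φ (E x s) : ℂ →L[ℝ] ℂ) : ℂ →ₗ[ℝ] ℂ) with hA
  have e1 : dL φ (x, s) (1, 0) = (φ (E x s))⁻¹ * A (E x s * (2 * Real.pi * Complex.I)) -
      2 * Real.pi * Complex.I := by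
    rw [dL_apply φ x s hs]
    simp [hA]
  have e2 : dL φ (x, s) (0, 1) = (φ (E x s))⁻¹ * A (E x s * (1 / (2 * s))) - 1 / (2 * s) := by
    rw [dL_apply φ x s hs]
    simp [hA]
  set a := dL φ (x, s) (1, 0)
  set b := dL φ (x, s) (0, 1)
  have f1 : A (E x s * (2 * Real.pi * Complex.I)) = φ (E x s) * (a + 2 * Real.pi * Complex.I) := by
    rw [e1]; field_simp; ring
  have f2 : A (E x s * (1 / (2 * s))) = φ (E x s) * (b + 1 / (2 * s)) := by
    rw [e2]; field_simp; ring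
  have hd := det_formula A hdet (E x s * (2 * Real.pi * Complex.I)) (E x s * (1 / (2 * s)))
  rw [f1, f2] at hd
  have hns : (E x s).re * (E x s).re + (E x s).im * (E x s).im = s / Real.pi := by
    rw [← E_norm_sq x s hs.le, ← Complex.normSq_apply, Complex.normSq_eq_norm_sq]
  have hexp : (φ (E x s)).re * (φ (E x s)).re + (φ (E x s)).im * (φ (E x s)).im =
      s / Real.pi * Real.exp (2 * (Lq φ (x, s)).re) := by
    have g1 : φ (E x s) = E x s * Complex.exp (Lq φ (x, s)) := by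
      unfold Lq
      rw [Complex.exp_log]
      · unfold Wq
        field_simp
      · unfold Wq
        exact div_ne_zero h0 hE
    rw [← Complex.normSq_apply, Complex.normSq_eq_norm_sq]
    conv_lhs => rw [g1]
    rw [norm_mul, mul_pow, E_norm_sq x s hs.le, Complex.norm_exp, ← Real.exp_nat_mul]
    norm_num
  set W := φ (E x s)
  set z := E x s
  set ee := Real.exp (2 * (Lq φ (x, s)).re)
  have hinv : ((1 / (2 * s) : ℂ)) = (((1 / (2 * s) : ℝ)) : ℂ) := by push_cast; ring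
  rw [hinv] at hd
  simp only [Complex.mul_re, Complex.mul_im, Complex.add_re, Complex.add_im, Complex.ofReal_re,
    Complex.ofReal_im, Complex.I_re, Complex.I_im, Complex.re_ofNat, Complex.im_ofNat] at hd
  ring_nf at hd
  have hd2 : (W.re * W.re + W.im * W.im) * ((2 * Real.pi + a.im) * (1 / (2 * s) + b.re)
      - a.re * b.im) = (z.re * z.re + z.im * z.im) * (2 * Real.pi * (1 / (2 * s))) := by
    ring_nf
    linear_combination -hd
  rw [hns, hexp] at hd2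
  field_simp at hd2 ⊢
  linear_combination hd2

end Pool.Agent.W853.DP
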