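import Pool.Agent.W853.DP.LiftC

/-! Cutoff and gluing. -/

set_option autoImplicit false

namespace Pool.Agent.W853.DP

open Pool.Agent.W710.DP Complex


/-- cutoff -/
noncomputable def ch (ρ s : ℝ) : ℝ := Real.smoothTransition (2 * (ρ + 7 / 2 - s))

theorem ch_one (ρ s : ℝ) (h : s ≤ ρ + 3) : ch ρ s = 1 :=
  Real.smoothTransition.one_of_one_le (by linarith)

theorem ch_zero (ρ s : ℝ) (h : ρ + 7 / 2 ≤ s) : ch ρ s = 0 :=
  Real.smoothTransition.zero_of_nonpos (by linarith)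

theorem ch_abs (ρ s : ℝ) : |ch ρ s| ≤ 1 := by
  rw [abs_le]
  have h1 := Real.smoothTransition.nonneg (2 * (ρ + 7 / 2 - s))
  have h2 := Real.smoothTransition.le_one (2 * (ρ + 7 / 2 - s))
  unfold ch
  constructor <;> linarith

theorem ch_contDiff (ρ : ℝ) : ContDiff ℝ ((⊤ : ℕ∞) : WithTop ℕ∞) (ch ρ) := by
  unfold ch
  exact Real.smoothTransition.contDiff.comp (by fun_prop)

theorem ch_hasDerivAt (ρ s : ℝ) : HasDerivAt (ch ρ) (deriv (ch ρ) s) s :=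
  ((ch_contDiff ρ).differentiable (by simp) s).hasDerivAt

theorem ch_deriv_zero (ρ s : ℝ) (h : s < ρ + 3) : deriv (ch ρ) s = 0 := by
  have : ch ρ =ᶠ[nhds s] fun _ => 1 := by
    filter_upwards [gt_mem_nhds h] with t ht
    exact ch_one ρ t ht.le
  rw [this.deriv_eq, deriv_const]

theorem ch_deriv_bound (ρ : ℝ) : ∃ B : ℝ, 1 ≤ B ∧ ∀ s, |deriv (ch ρ) s| ≤ B := by
  have hc : Continuous (deriv (ch ρ)) := (ch_contDiff ρ).continuous_deriv (by simp)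
  obtain ⟨B, hB⟩ := (isCompact_Icc (a := ρ + 3) (b := ρ + 4)).exists_bound_of_continuousOn
    hc.continuousOn
  refine ⟨max B 1, le_max_right _ _, fun s => ?_⟩
  by_cases h1 : s < ρ + 3
  · rw [ch_deriv_zero ρ s h1, abs_zero]
    exact le_trans zero_le_one (le_max_right _ _)
  by_cases h2 : ρ + 4 < s
  · have : ch ρ =ᶠ[nhds s] fun _ => 0 := by
      filter_upwards [lt_mem_nhds h2] with t ht
      exact ch_zero ρ t (by linarith)
    rw [this.deriv_eq, deriv_const, abs_zero]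
    exact le_trans zero_le_one (le_max_right _ _)
  · have := hB s ⟨not_lt.1 h1, not_lt.1 h2⟩
    rw [Real.norm_eq_abs] at this
    exact this.trans (le_max_left _ _)

/-- gluing by zero -/
noncomputable def glu (s0 d : ℝ) (f : ℝ × ℝ → ℝ) (p : ℝ × ℝ) : ℝ := by
  classical exact if s0 < p.2 ∧ p.2 < d then f p else 0

section glue
variable {s0 c d : ℝ} {f : ℝ × ℝ → ℝ}

theorem glu_eq {p : ℝ × ℝ} (h1 : s0 < p.2) (h2 : p.2 < d) : glu s0 d f p = f p := by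
  unfold glu
  rw [if_pos ⟨h1, h2⟩]

theorem glu_low (hl : ∀ p, s0 < p.2 → p.2 < 2 * s0 → f p = 0) {p : ℝ × ℝ} (h : p.2 < 2 * s0) :
    glu s0 d f p = 0 := by
  unfold glu
  split_ifs with h1
  · exact hl p h1.1 h
  · rfl

theorem glu_high (hr : ∀ p, c < p.2 → f p = 0) {p : ℝ × ℝ} (h : c < p.2) :
    glu s0 d f p = 0 := by
  unfold glu
  split_ifs with h1
  · exact hr p h
  · rfl

theorem ev_lt {p : ℝ × ℝ} {a : ℝ} (h : p.2 < a) : ∀ᶠ q : ℝ × ℝ in nhds p, q.2 < a :=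
  continuousAt_snd.eventually (gt_mem_nhds h)

theorem ev_gt {p : ℝ × ℝ} {a : ℝ} (h : a < p.2) : ∀ᶠ q : ℝ × ℝ in nhds p, a < q.2 :=
  continuousAt_snd.eventually (lt_mem_nhds h)

theorem glu_ev_low (hl : ∀ p, s0 < p.2 → p.2 < 2 * s0 → f p = 0) {p : ℝ × ℝ}
    (h : p.2 < 2 * s0) : glu s0 d f =ᶠ[nhds p] fun _ => 0 := by
  filter_upwards [ev_lt h] with q hq using glu_low hl hq

theorem glu_ev_high (hr : ∀ p, c < p.2 → f p = 0) {p : ℝ × ℝ} (h : c < p.2) :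
    glu s0 d f =ᶠ[nhds p] fun _ => 0 := by
  filter_upwards [ev_gt h] with q hq using glu_high hr hq

theorem glu_ev_mid {p : ℝ × ℝ} (h1 : s0 < p.2) (h2 : p.2 < d) :
    glu s0 d f =ᶠ[nhds p] f := by
  filter_upwards [ev_gt h1, ev_lt h2] with q hq hq' using glu_eq hq hq'

theorem glu_small {δ : ℝ} (hδ : 0 ≤ δ) (hs0 : 0 < s0) (hcd : c < d)
    (hl : ∀ p, s0 < p.2 → p.2 < 2 * s0 → f p = 0) (hr : ∀ p, c < p.2 → f p = 0)
    (hsm : ∀ p, s0 < p.2 → p.2 < d → ContDiffAt ℝ ((⊤ : ℕ∞) : WithTop ℕ∞) f p)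
    (hb : ∀ p, s0 < p.2 → p.2 < d → |f p| ≤ δ ∧ ‖fderiv ℝ f p‖ ≤ δ) :
    SmallC1 δ (glu s0 d f) := by
  constructor
  · rw [contDiff_iff_contDiffAt]
    intro p
    by_cases h1 : p.2 < 2 * s0
    · exact contDiffAt_const.congr_of_eventuallyEq (glu_ev_low hl h1)
    by_cases h2 : c < p.2
    · exact contDiffAt_const.congr_of_eventuallyEq (glu_ev_high hr h2)
    have h3 : s0 < p.2 := by linarith [not_lt.1 h1]
    have h4 : p.2 < d := by linarith [not_lt.1 h2]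
    exact (hsm p h3 h4).congr_of_eventuallyEq (glu_ev_mid h3 h4)
  · intro p
    by_cases h1 : p.2 < 2 * s0
    · rw [(glu_ev_low hl h1).fderiv_eq, glu_low hl h1]
      simp [hδ]
    by_cases h2 : c < p.2
    · rw [(glu_ev_high hr h2).fderiv_eq, glu_high hr h2]
      simp [hδ]
    have h3 : s0 < p.2 := by linarith [not_lt.1 h1]
    have h4 : p.2 < d := by linarith [not_lt.1 h2]
    rw [(glu_ev_mid h3 h4).fderiv_eq, glu_eq h3 h4]
    exact hb p h3 h4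

end glue

/-! #### the two functions -/

/-- first function before gluing -/
noncomputable def uf (φ : ℂ → ℂ) (ρ : ℝ) (p : ℝ × ℝ) : ℝ :=
  ch ρ p.2 * ((Lq φ p).im / (2 * Real.pi))

/-- second function before gluing -/
noncomputable def vf (φ : ℂ → ℂ) (ρ : ℝ) (p : ℝ × ℝ) : ℝ :=
  ch ρ p.2 * (p.2 * (Real.exp (2 * (Lq φ p).re) - 1))

/-- derivative of `uf` -/
noncomputable def duf (φ : ℂ → ℂ) (ρ : ℝ) (p : ℝ × ℝ) : ℝ × ℝ →L[ℝ] ℝ :=
  ch ρ p.2 • ((1 / (2 * Real.pi)) • Complex.imCLM.comp (dL φ p)) +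
    ((Lq φ p).im / (2 * Real.pi)) • (deriv (ch ρ) p.2 • ContinuousLinearMap.snd ℝ ℝ ℝ)

/-- derivative of `vf` -/
noncomputable def dvf (φ : ℂ → ℂ) (ρ : ℝ) (p : ℝ × ℝ) : ℝ × ℝ →L[ℝ] ℝ :=
  ch ρ p.2 • (p.2 • (Real.exp (2 * (Lq φ p).re) • ((2 : ℝ) • Complex.reCLM.comp (dL φ p))) +
      (Real.exp (2 * (Lq φ p).re) - 1) • ContinuousLinearMap.snd ℝ ℝ ℝ) +
    (p.2 * (Real.exp (2 * (Lq φ p).re) - 1)) •
      (deriv (ch ρ) p.2 • ContinuousLinearMap.snd ℝ ℝ ℝ)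

theorem ch_fderiv (ρ : ℝ) (p : ℝ × ℝ) :
    HasFDerivAt (fun q : ℝ × ℝ => ch ρ q.2)
      (deriv (ch ρ) p.2 • ContinuousLinearMap.snd ℝ ℝ ℝ) p :=
  (ch_hasDerivAt ρ p.2).comp_hasFDerivAt p (hasFDerivAt_snd (𝕜 := ℝ) (p := p))

theorem uf_hasFDerivAt (φ : ℂ → ℂ) (ρ : ℝ) (p : ℝ × ℝ) (h : HasFDerivAt (Lq φ) (dL φ p) p) :
    HasFDerivAt (uf φ ρ) (duf φ ρ p) p := by
  have h1 : HasFDerivAt (fun q => (Lq φ q).im) (Complex.imCLM.comp (dL φ p)) p :=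
    Complex.imCLM.hasFDerivAt.comp p h
  have h2 : HasFDerivAt (fun q => (Lq φ q).im / (2 * Real.pi))
      ((1 / (2 * Real.pi)) • Complex.imCLM.comp (dL φ p)) p := by
    have := h1.mul_const (1 / (2 * Real.pi))
    refine this.congr_of_eventuallyEq (Filter.Eventually.of_forall fun q => ?_)
    simp [div_eq_mul_inv]
  exact (ch_fderiv ρ p).mul h2

theorem vf_hasFDerivAt (φ : ℂ → ℂ) (ρ : ℝ) (p : ℝ × ℝ) (h : HasFDerivAt (Lq φ) (dL φ p) p) :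
    HasFDerivAt (vf φ ρ) (dvf φ ρ p) p := by
  have h1 : HasFDerivAt (fun q => (Lq φ q).re) (Complex.reCLM.comp (dL φ p)) p :=
    Complex.reCLM.hasFDerivAt.comp p h
  have h2 : HasFDerivAt (fun q => 2 * (Lq φ q).re) ((2 : ℝ) • Complex.reCLM.comp (dL φ p)) p :=
    h1.const_mul 2
  have h3 := (h2.exp).sub_const 1
  have h4 := (hasFDerivAt_snd (𝕜 := ℝ) (p := p)).mul h3
  exact (ch_fderiv ρ p).mul h4

theorem uf_contDiffAt (φ : ℂ → ℂ) (ρ : ℝ) (p : ℝ × ℝ) (h : ContDiffAt ℝ ((⊤ : ℕ∞) : WithTop ℕ∞) (Lq φ) p) :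
    ContDiffAt ℝ ((⊤ : ℕ∞) : WithTop ℕ∞) (uf φ ρ) p := by
  have h0 : ContDiffAt ℝ ((⊤ : ℕ∞) : WithTop ℕ∞) (fun q : ℝ × ℝ => ch ρ q.2) p :=
    (ch_contDiff ρ).contDiffAt.comp p contDiffAt_snd
  have h1 : ContDiffAt ℝ ((⊤ : ℕ∞) : WithTop ℕ∞) (fun q => (Lq φ q).im) p :=
    Complex.imCLM.contDiff.contDiffAt.comp p h
  exact h0.mul (h1.div_const _)

theorem vf_contDiffAt (φ : ℂ → ℂ) (ρ : ℝ) (p : ℝ × ℝ) (h : ContDiffAt ℝ ((⊤ : ℕ∞) : WithTop ℕ∞) (Lq φ) p) :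
    ContDiffAt ℝ ((⊤ : ℕ∞) : WithTop ℕ∞) (vf φ ρ) p := by
  have h0 : ContDiffAt ℝ ((⊤ : ℕ∞) : WithTop ℕ∞) (fun q : ℝ × ℝ => ch ρ q.2) p :=
    (ch_contDiff ρ).contDiffAt.comp p contDiffAt_snd
  have h1 : ContDiffAt ℝ ((⊤ : ℕ∞) : WithTop ℕ∞) (fun q => (Lq φ q).re) p :=
    Complex.reCLM.contDiff.contDiffAt.comp p h
  have h2 : ContDiffAt ℝ ((⊤ : ℕ∞) : WithTop ℕ∞) (fun q => Real.exp (2 * (Lq φ q).re)) p :=
    Real.contDiff_exp.contDiffAt.comp p (contDiffAt_const.mul h1)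
  exact h0.mul (contDiffAt_snd.mul (h2.sub contDiffAt_const))

theorem smul_snd_norm (a : ℝ) : ‖a • ContinuousLinearMap.snd ℝ ℝ ℝ‖ ≤ |a| := by
  rw [norm_smul, Real.norm_eq_abs]
  have := ContinuousLinearMap.norm_snd_le ℝ ℝ ℝ
  nlinarith [abs_nonneg a]

theorem exp_b {t : ℝ} (h : |2 * t| ≤ 1) : |Real.exp (2 * t) - 1| ≤ 4 * |t| ∧
    Real.exp (2 * t) ≤ 3 := by
  have h1 := Real.abs_exp_sub_one_le h
  rw [abs_mul] at h1
  norm_num at h1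
  refine ⟨by linarith, ?_⟩
  have := abs_le.1 h
  have h2 : Real.exp (2 * t) ≤ Real.exp 1 := Real.exp_le_exp.2 this.2
  exact h2.trans Real.exp_one_lt_three.le

theorem uf_bound (φ : ℂ → ℂ) (ρ : ℝ) (p : ℝ × ℝ) (B K : ℝ) (hB : 1 ≤ B)
    (hBd : ∀ s, |deriv (ch ρ) s| ≤ B) (h1 : ‖Lq φ p‖ ≤ K) (h2 : ‖dL φ p‖ ≤ K) :
    |uf φ ρ p| ≤ 2 * B * K ∧ ‖duf φ ρ p‖ ≤ 2 * B * K := by
  have hK : 0 ≤ K := (norm_nonneg _).trans h1
  have hpi : 1 ≤ 2 * Real.pi := by linarith [Real.pi_gt_three]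
  have hpi0 : 0 < 2 * Real.pi := by linarith
  have hi : |(Lq φ p).im / (2 * Real.pi)| ≤ K := by
    rw [abs_div, abs_of_pos hpi0, div_le_iff₀ hpi0]
    have := (Complex.abs_im_le_norm (Lq φ p)).trans h1
    nlinarith
  have hc := ch_abs ρ p.2
  constructor
  · unfold uf
    rw [abs_mul]
    calc |ch ρ p.2| * |(Lq φ p).im / (2 * Real.pi)| ≤ 1 * K := by gcongr
      _ ≤ 2 * B * K := by nlinarith
  · unfold duf
    have e1 : ‖ch ρ p.2 • ((1 / (2 * Real.pi)) • Complex.imCLM.comp (dL φ p))‖ ≤ 1 * (1 * K) := by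
      rw [norm_smul, norm_smul, Real.norm_eq_abs, Real.norm_eq_abs]
      have q1 : |1 / (2 * Real.pi)| ≤ 1 := by
        rw [abs_of_pos (by positivity), div_le_one hpi0]; exact hpi
      have q2 : ‖Complex.imCLM.comp (dL φ p)‖ ≤ K := by
        refine (ContinuousLinearMap.opNorm_comp_le _ _).trans ?_
        rw [Complex.imCLM_norm, one_mul]; exact h2
      gcongr
    have e2 : ‖((Lq φ p).im / (2 * Real.pi)) • (deriv (ch ρ) p.2 •
        ContinuousLinearMap.snd ℝ ℝ ℝ)‖ ≤ K * B := by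
      rw [norm_smul, Real.norm_eq_abs]
      have q3 := (smul_snd_norm (deriv (ch ρ) p.2)).trans (hBd p.2)
      gcongr
    refine (norm_add_le _ _).trans ?_
    nlinarith

theorem vf_bound (φ : ℂ → ℂ) (ρ : ℝ) (hρ : 0 < ρ) (p : ℝ × ℝ) (B K : ℝ) (hB : 1 ≤ B)
    (hp0 : 0 < p.2) (hp : p.2 ≤ ρ + 4) (hK2 : K ≤ 1 / 2)
    (hBd : ∀ s, |deriv (ch ρ) s| ≤ B) (h1 : ‖Lq φ p‖ ≤ K) (h2 : ‖dL φ p‖ ≤ K) :
    |vf φ ρ p| ≤ 14 * (ρ + 4) * B * K ∧ ‖dvf φ ρ p‖ ≤ 14 * (ρ + 4) * B * K := by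
  have hK : 0 ≤ K := (norm_nonneg _).trans h1
  have hr : |(Lq φ p).re| ≤ K := (Complex.abs_re_le_norm (Lq φ p)).trans h1
  have hr2 : |2 * (Lq φ p).re| ≤ 1 := by
    rw [abs_mul]; norm_num; linarith
  obtain ⟨x1, x2⟩ := exp_b hr2
  have x3 : |Real.exp (2 * (Lq φ p).re) - 1| ≤ 4 * K := by linarith
  have x0 := Real.exp_pos (2 * (Lq φ p).re)
  have hc := ch_abs ρ p.2
  have hg : |p.2 * (Real.exp (2 * (Lq φ p).re) - 1)| ≤ (ρ + 4) * (4 * K) := by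
    rw [abs_mul, abs_of_pos hp0]
    gcongr
  have hBK : K ≤ B * K := by nlinarith
  have hρK : 0 ≤ ρ * K := by positivity
  have hρBK : ρ * K ≤ ρ * (B * K) := by gcongr
  constructor
  · unfold vf
    rw [abs_mul]
    calc |ch ρ p.2| * |p.2 * (Real.exp (2 * (Lq φ p).re) - 1)| ≤ 1 * ((ρ + 4) * (4 * K)) := by
          gcongr
      _ ≤ _ := by nlinarith
  · unfold dvf
    have e1 : ‖p.2 • (Real.exp (2 * (Lq φ p).re) • ((2 : ℝ) • Complex.reCLM.comp (dL φ p)))‖ ≤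
        (ρ + 4) * (3 * (2 * K)) := by
      rw [norm_smul, norm_smul, norm_smul, Real.norm_eq_abs, Real.norm_eq_abs, Real.norm_eq_abs,
        abs_of_pos hp0, abs_of_pos x0]
      have q2 : ‖Complex.reCLM.comp (dL φ p)‖ ≤ K := by
        refine (ContinuousLinearMap.opNorm_comp_le _ _).trans ?_
        rw [Complex.reCLM_norm, one_mul]; exact h2
      have q3 : |(2 : ℝ)| = 2 := by norm_num
      rw [q3]
      gcongr
    have e2 := (smul_snd_norm (Real.exp (2 * (Lq φ p).re) - 1)).trans x3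
    have e3 : ‖ch ρ p.2 • (p.2 • (Real.exp (2 * (Lq φ p).re) •
        ((2 : ℝ) • Complex.reCLM.comp (dL φ p))) +
        (Real.exp (2 * (Lq φ p).re) - 1) • ContinuousLinearMap.snd ℝ ℝ ℝ)‖ ≤
        1 * ((ρ + 4) * (3 * (2 * K)) + 4 * K) := by
      rw [norm_smul, Real.norm_eq_abs]
      have := (norm_add_le _ _).trans (add_le_add e1 e2)
      gcongr
    have e4 : ‖(p.2 * (Real.exp (2 * (Lq φ p).re) - 1)) • (deriv (ch ρ) p.2 •
        ContinuousLinearMap.snd ℝ ℝ ℝ)‖ ≤ ((ρ + 4) * (4 * K)) * B := by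
      rw [norm_smul, Real.norm_eq_abs]
      have q3 := (smul_snd_norm (deriv (ch ρ) p.2)).trans (hBd p.2)
      gcongr
    refine (norm_add_le _ _).trans ((add_le_add e3 e4).trans ?_)
    nlinarith

end Pool.Agent.W853.DP
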